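import Pool.Agent.Helper19K9.GridGP

/-!
The `k`-general position number of the `n`-dimensional infinite grid is `(k - 1) ^ (2 ^ (n - 1))`.
-/

set_option autoImplicit false

namespace Pool.Agent.Helper19K9.Withdrawn.GridGeneralPosition

/-- The `n`-dimensional infinite grid: the graph on `ℤ ^ n` in which two points are adjacent when they
differ by one in exactly one coordinate. -/
def grid (n : ℕ) : SimpleGraph (Fin n → ℤ) where
  Adj x y := ∃ i, |x i - y i| = 1 ∧ ∀ j, j ≠ i → x j = y j
  symm := (Pool.Agent.Helper19K9.GridGP.grid n).symm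
  loopless := (Pool.Agent.Helper19K9.GridGP.grid n).loopless

/-- The vertices in `T` lie on a common geodesic: some shortest path between two vertices contains all
of them. -/
def OnCommonGeodesic {V : Type} (G : SimpleGraph V) (T : Finset V) : Prop :=
  ∃ (u v : V) (p : G.Walk u v), p.length = G.dist u v ∧ ∀ x ∈ T, x ∈ p.support

/-- `S` is a `k`-general position set: no `k` distinct vertices of `S` lie on a common geodesic. -/
def IsGeneralPosition {V : Type} (G : SimpleGraph V) (k : ℕ) (S : Set V) : Prop :=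
  ∀ T : Finset V, (T : Set V) ⊆ S → T.card = k → ¬ OnCommonGeodesic G T

/-- The `k`-general position number: the largest size of a `k`-general position set, or `⊤` if there
is no largest. -/
noncomputable def gp {V : Type} (G : SimpleGraph V) (k : ℕ) : ℕ∞ :=
  ⨆ (S : Set V) (_ : IsGeneralPosition G k S), S.encard

open Pool.Agent.Helper19K9.GridGP in
/-- For all `k ≥ 2` and `n ≥ 1`, the `k`-general position number of the `n`-dimensional infinite grid
is `(k - 1) ^ (2 ^ (n - 1))`, and it is attained by a finite set. -/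
theorem result (k n : ℕ) (hk : 2 ≤ k) (hn : 1 ≤ n) :
    gp (grid n) k = (((k - 1) ^ 2 ^ (n - 1) : ℕ) : ℕ∞) ∧
    ∃ S : Finset (Fin n → ℤ), IsGeneralPosition (grid n) k S ∧ S.card = (k - 1) ^ 2 ^ (n - 1) := by
  obtain ⟨m, rfl⟩ : ∃ m, n = m + 1 := ⟨n - 1, by omega⟩
  have hgrid : grid (m + 1) = Pool.Agent.Helper19K9.GridGP.grid (m + 1) := rfl
  rw [Nat.add_sub_cancel, hgrid]
  obtain ⟨S, hSc, -, hSch⟩ := lower hk m
  have hgp : IsGeneralPosition (Pool.Agent.Helper19K9.GridGP.grid (m + 1)) k
      (S : Set (Fin (m + 1) → ℤ)) := by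
    rintro T hT hTk ⟨u, v, p, hp, hsup⟩
    obtain ⟨s, hs⟩ := walk_chain p hp T hsup
    have := hSch s T (by exact_mod_cast hT) hs
    omega
  refine ⟨le_antisymm ?_ ?_, S, hgp, hSc⟩
  · refine iSup₂_le fun R hR => ?_
    -- all finite subsets of `R` are small
    have hfin : ∀ F : Finset (Fin (m + 1) → ℤ), (F : Set (Fin (m + 1) → ℤ)) ⊆ R →
        F.card ≤ (k - 1) ^ 2 ^ m := by
      intro F hF
      refine upper hk F fun s T hT hch hTk => ?_
      obtain ⟨u, v, -, -, p, hp, hsup⟩ := chain_walk s (k - 1) T (by omega) hch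
      refine hR T (fun x hx => hF (hT hx)) hTk ⟨u, v, p, ?_, hsup⟩
      rw [hp]
      exact (dist_eq u v).symm
    by_contra hc
    rw [not_le] at hc
    have h1 : (((k - 1) ^ 2 ^ m + 1 : ℕ) : ℕ∞) ≤ R.encard := by
      rw [Nat.cast_add, Nat.cast_one]
      exact Order.add_one_le_of_lt hc
    obtain ⟨t, ht, htc⟩ := Set.exists_subset_encard_eq h1
    have htf : t.Finite := Set.finite_of_encard_eq_coe htc
    have h2 := hfin htf.toFinset (by rwa [Set.Finite.coe_toFinset])
    rw [htf.encard_eq_coe_toFinset_card] at htc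
    have h3 : htf.toFinset.card = (k - 1) ^ 2 ^ m + 1 := by exact_mod_cast htc
    omega
  · refine le_trans ?_ (le_iSup₂ (f := fun (S : Set (Fin (m + 1) → ℤ))
      (_ : IsGeneralPosition (Pool.Agent.Helper19K9.GridGP.grid (m + 1)) k S) => S.encard)
      (S : Set (Fin (m + 1) → ℤ)) hgp)
    rw [Set.encard_coe_eq_coe_finsetCard, hSc]

end Pool.Agent.Helper19K9.Withdrawn.GridGeneralPosition
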